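import Pool.Agent.H75.TB.Virt

/-!
# MP_397c75_al: CAT(0) tubular free-by-cyclic groups virtually embed in RAAGs

Let `G` be a group acting properly and cocompactly by isometries on a CAT(0) space `X`, and let `H`
be a subgroup of finite index of `G` (for instance `H = G`) which is free-by-cyclic and is the
fundamental group of a finite graph of groups with vertex groups `ℤ²` and edge groups `ℤ`.  Then a
subgroup of finite index of `G` embeds in a right-angled Artin group.
-/

open Pool.Agent.H29 Pool.Agent.H75.TB

namespace Pool.Agent.Results.MP_397c75_al.TubularCase

/-- `G` acts by isometries on a nonempty CAT(0) space `X`; for each compact `K` only finitely many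
`g` satisfy `gK ∩ K ≠ ∅`, and some compact set meets every orbit.  The subgroup `H` of `G` has
finite index, is free-by-cyclic, and is isomorphic to the fundamental group `D.Grp` of a finite
graph of groups with vertex groups `ℤ²` and infinite cyclic edge groups.  Then `G` virtually embeds
in the right-angled Artin group of a finite graph. -/
theorem result {G : Type*} [Group G] (H : Subgroup G) [H.FiniteIndex]
    (hH : FreeByCyclic H) (D : TubGraph) (hD : Nonempty (H ≃* D.Grp)) {X : Type*} [MetricSpace X]
    [Nonempty X] [IsCAT0 X] [MulAction G X]
    (hiso : ∀ (g : G) (x y : X), dist (g • x) (g • y) = dist x y)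
    (hprop : ∀ K : Set X, IsCompact K → {g : G | ∃ x ∈ K, g • x ∈ K}.Finite)
    (hco : ∃ K : Set X, IsCompact K ∧ ∀ x : X, ∃ g : G, g • x ∈ K) : VirtuallyRAAG G :=
  tubular_cat0_virtual H hH D hD hiso hprop hco

end Pool.Agent.Results.MP_397c75_al.TubularCase
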